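import Mathlib
import Pool.Agent.Lib.MP_9f1eae_lc.LD.Hier

/-! Sets computable from an arithmetic set stay at a fixed level. -/

namespace Pool.Agent.Lib.MP_9f1eae_lc.LD

open Pool.Agent.Lib.MP_3d42d9_lc Pool.Agent.Lib.MP_9f1eae_lc Encodable

variable {α : Type} [Primcodable α] {n : ℕ}

theorem Sg.exs {T : Type} [Primcodable T] [Inhabited T] {P : α × T → Prop} (h : Sg (n + 1) P) :
    Sg (n + 1) fun x => ∃ t, P (x, t) := by
  obtain ⟨R, h1, h2⟩ := h
  refine ⟨_, h1.comp (g := fun p : α × ℕ => ((p.1, dec T p.2.unpair.1), p.2.unpair.2))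
    (by fun_prop), fun x => ?_⟩
  simp only [h2]
  exact ⟨fun ⟨t, y, k⟩ => ⟨Nat.pair (encode t) y, by simpa only [Nat.unpair_pair, dec_encode]⟩,
    fun ⟨y, k⟩ => ⟨_, _, k⟩⟩

theorem Sg.bex {P : α × ℕ → Prop} (h : Sg n P) {m : α → ℕ} (hm : CP m) :
    Sg n fun x => ∃ i < m x, P (x, i) := by
  cases n with
  | zero =>
    obtain ⟨f, h1, h2⟩ := sg_zero.1 h
    exact sg_zero.2 ⟨_, (CP.all (g := fun x i => !f (x, i)) hm.range h1.not).not,
      fun x => by simp [h2]⟩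
  | succ n =>
    exact ((Sg.bool (f := fun p : α × ℕ => Nat.blt p.2 (m p.1)) (by fun_prop) _).and_or
      h).1.exs.congr fun x => by simp [Nat.blt_eq]

theorem Sg.ball {P : α × ℕ → Prop} (h : Sg (n + 1) P) {m : α → ℕ} (hm : CP m) :
    Sg (n + 1) fun x => ∀ i < m x, P (x, i) := by
  obtain ⟨R, h1, h2⟩ := h
  refine ⟨_, Sg.bex (h1.comp (g := fun p : (α × ℕ) × ℕ =>
    ((p.1.1, p.2), (dec (List ℕ) p.1.2).getD p.2 0)) (by fun_prop))
    (m := fun p : α × ℕ => m p.1) (by fun_prop), fun x => ?_⟩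
  simp only [h2, not_exists, not_and]
  refine ⟨fun k => ?_, fun ⟨y, k⟩ i l => ⟨_, k i l⟩⟩
  choose! A hA using k
  refine ⟨encode ((List.range (m x)).map A), fun i l => ?_⟩
  simpa [dec_encode, List.getD_eq_getElem?_getD, List.getElem?_range l] using hA i l

theorem mem_rec (s : Part ℕ) (g : ℕ → ℕ → Part ℕ) (k v : ℕ) :
    v ∈ (k.rec s fun y IH => IH >>= g y : Part ℕ) ↔ ∃ L : List ℕ, L.getD 0 0 ∈ s ∧
      (∀ i < k, L.getD (i + 1) 0 ∈ g i (L.getD i 0)) ∧ v = L.getD k 0 := by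
  have key : v ∈ (k.rec s fun y IH => IH >>= g y : Part ℕ) ↔ ∃ A : ℕ → ℕ, A 0 ∈ s ∧
      (∀ i < k, A (i + 1) ∈ g i (A i)) ∧ v = A k := by
    induction k generalizing v with
    | zero => exact ⟨fun h => ⟨fun _ => v, h, by simp, rfl⟩, fun ⟨A, h, _, e⟩ => e ▸ h⟩
    | succ k ih =>
      simp only [Part.bind_eq_bind, Part.mem_bind_iff] at ih ⊢
      refine ⟨fun ⟨u, h1, h2⟩ => ?_, fun ⟨A, h1, h2, e⟩ =>
        ⟨A k, (ih _).2 ⟨A, h1, fun i l => h2 i (by omega), rfl⟩, e ▸ h2 k (by omega)⟩⟩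
      obtain ⟨A, k1, k2, rfl⟩ := (ih _).1 h1
      refine ⟨Function.update A (k + 1) v, by simpa using k1, fun i l => ?_, by simp⟩
      rcases Nat.lt_succ_iff_lt_or_eq.1 l with l | rfl
      · rw [Function.update_of_ne (by omega), Function.update_of_ne (by omega)]
        exact k2 i l
      · simpa using h2
  rw [key]
  refine ⟨fun ⟨A, h1, h2, e⟩ => ?_, fun ⟨L, h⟩ => ⟨fun i => L.getD i 0, h⟩⟩
  have g : ∀ i ≤ k, ((List.range (k + 1)).map A).getD i 0 = A i := fun i m => by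
    simp [List.getD_eq_getElem?_getD, List.getElem?_range (Nat.lt_succ_of_le m)]
  exact ⟨_, g 0 k.zero_le ▸ h1, fun i l => by rw [g i l.le, g (i + 1) l]; exact h2 i l,
    (g k le_rfl).symm ▸ e⟩

theorem graph_sg {B : Set ℕ} (h1 : Sg (n + 1) fun x => x ∈ B) (h2 : Sg (n + 1) fun x => x ∉ B)
    {f : ℕ →. ℕ} (hf : Nat.RecursiveIn {chi B} f) : Sg (n + 1) fun p : ℕ × ℕ => p.2 ∈ f p.1 := by
  have eq : ∀ {β : Type} [Primcodable β] {a b : β → ℕ}, CP a → CP b →
      Sg (n + 1) fun x => a x = b x := fun ha hb =>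
    (Sg.bool (ha.beq hb) _).congr fun x => by simp
  induction hf with
  | zero => exact (eq (a := fun p : ℕ × ℕ => p.2) (b := fun _ => 0) (by fun_prop)
      (by fun_prop)).congr fun p => Part.mem_some_iff
  | succ => exact (eq (a := fun p : ℕ × ℕ => p.2) (b := fun p => p.1 + 1) (by fun_prop)
      (CP.of_pr (by fun_prop))).congr fun p => Part.mem_some_iff
  | left => exact (eq (a := fun p : ℕ × ℕ => p.2) (b := fun p => p.1.unpair.1) (by fun_prop)
      (by fun_prop)).congr fun p => Part.mem_some_iff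
  | right => exact (eq (a := fun p : ℕ × ℕ => p.2) (b := fun p => p.1.unpair.2) (by fun_prop)
      (by fun_prop)).congr fun p => Part.mem_some_iff
  | oracle g hg =>
    obtain rfl : g = chi B := hg
    refine (((h1.comp (g := fun p : ℕ × ℕ => p.1) (by fun_prop)).and_or
      (eq (a := fun p : ℕ × ℕ => p.2) (b := fun _ => 1) (by fun_prop) (by fun_prop))).1.and_or
      ((h2.comp (g := fun p : ℕ × ℕ => p.1) (by fun_prop)).and_or
      (eq (a := fun p : ℕ × ℕ => p.2) (b := fun _ => 0) (by fun_prop)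
        (by fun_prop))).1).2.congr fun p => ?_
    by_cases k : p.1 ∈ B <;> simp [chi, k]
  | pair _ _ i1 i2 =>
    refine ((i1.comp (g := fun p : ℕ × ℕ => (p.1, p.2.unpair.1)) (by fun_prop)).and_or
      (i2.comp (g := fun p : ℕ × ℕ => (p.1, p.2.unpair.2)) (by fun_prop))).1.congr fun p => ?_
    simp only [Seq.seq, Part.map_eq_map, Part.mem_bind_iff, Part.mem_map_iff]
    exact ⟨fun ⟨_, ⟨a, ha, rfl⟩, b, hb, e⟩ => by simp [← e, ha, hb],
      fun ⟨ha, hb⟩ => ⟨_, ⟨_, ha, rfl⟩, _, hb, Nat.pair_unpair _⟩⟩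
  | comp _ _ i1 i2 =>
    exact ((i2.comp (g := fun p : (ℕ × ℕ) × ℕ => (p.1.1, p.2)) (by fun_prop)).and_or
      (i1.comp (g := fun p : (ℕ × ℕ) × ℕ => (p.2, p.1.2)) (by fun_prop))).1.exs.congr
      fun p => Part.mem_bind_iff
  | prec _ _ i1 i2 =>
    have c1 : CP fun q : ((ℕ × ℕ) × List ℕ) × ℕ => (Nat.pair q.1.1.1.unpair.1
        (Nat.pair q.2 (q.1.2.getD q.2 0)), q.1.2.getD (q.2 + 1) 0) :=
      CP.pair (CP.bin (p := Nat.pair) (by fun_prop) (by fun_prop)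
        (CP.bin (p := Nat.pair) (by fun_prop) (by fun_prop) (by fun_prop)))
        (CP.getD _ (by fun_prop) (CP.of_pr (by fun_prop)))
    exact ((i1.comp (g := fun q : (ℕ × ℕ) × List ℕ => (q.1.1.unpair.1, q.2.getD 0 0))
      (by fun_prop)).and_or (((i2.comp c1).ball (m := fun q => q.1.1.unpair.2)
      (by fun_prop)).and_or (eq (a := fun q : (ℕ × ℕ) × List ℕ => q.1.2)
        (b := fun q => q.2.getD q.1.1.unpair.2 0) (by fun_prop) (by fun_prop))).1).1.exs.congr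
      fun p => mem_rec _ _ _ _
  | rfind _ i1 =>
    refine ((i1.comp (g := fun p : ℕ × ℕ => (Nat.pair p.1 p.2, 0))
      (CP.of_pr (by fun_prop))).and_or ((i1.comp (g := fun q : ((ℕ × ℕ) × ℕ) × ℕ =>
        (Nat.pair q.1.1.1 q.1.2, q.2 + 1)) (CP.of_pr (by fun_prop))).exs.ball
        (m := fun p => p.2) (by fun_prop))).1.congr fun p => Nat.mem_rfind.trans ?_
    simp only [Part.map_eq_map, Part.mem_map_iff, decide_eq_true_eq,
      exists_eq_right, decide_eq_false_iff_not]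
    refine and_congr_right fun _ => ⟨fun h i l => ?_, fun h i l => ?_⟩
    · obtain ⟨a, ha, k⟩ := h l
      exact ⟨a - 1, by rwa [Nat.sub_one_add_one k]⟩
    · exact (h i l).elim fun t k => ⟨_, k, t.succ_ne_zero⟩

theorem sg_rr (j : ℕ) : Sg j fun p : ℕ × ℕ => RR j p.1 p.2 := by
  induction j with
  | zero => exact (Sg.bool (CP.of_pr pr_hl).not 0).congr fun p => by simp [RR]
  | succ j ih =>
    exact ⟨_, ih.comp (g := fun q : (ℕ × ℕ) × ℕ => (q.1.1, Nat.pair q.1.2 q.2))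
      (CP.of_pr (by fun_prop)), fun _ => Iff.rfl⟩

theorem not_all_below {B : Set ℕ} (h : IsArith B) :
    ¬ ∀ Y : Set ℕ, IsArith Y → TuringReducible (chi Y) (chi B) := fun k => by
  obtain ⟨n, h1, h2⟩ := h
  have := k {x | ¬ RR (n + 1 + 1) x x} (Ar.isArith ⟨_, ((sg_rr _).comp
    (g := fun x : ℕ => (x, x)) (by fun_prop)).not⟩)
  refine not_sg_diag (n + 1) (((graph_sg h1.succ h2.succ (RecursiveIn.iff_nat.1 this)).comp
    (g := fun x : ℕ => (x, 1)) (by fun_prop)).congr fun x => ?_)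
  by_cases l : RR (n + 1 + 1) x x <;> simp [chi, l]

theorem turing_of_cp {C : Type} [Primcodable C] [Inhabited C] {chk chk' : ℕ × C → Bool}
    {sp : C → List ℕ} (c1 : CP chk) (c2 : CP chk') (psp : PR sp) {B Y : Set ℕ}
    (h : ∀ x, x ∈ Y ↔ ∃ c, chk (x, c) = true ∧ ∀ b ∈ sp c, b ∈ B)
    (h' : ∀ x, x ∉ Y ↔ ∃ c, chk' (x, c) = true ∧ ∀ b ∈ sp c, b ∈ B) :
    TuringReducible (chi Y) (chi B) := by
  have nf : ∀ {f : ℕ × C → Bool}, CP f → ∃ k, ∀ p, f p = true ↔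
      ∃ y, hl k (Nat.pair (encode p) y) = true := fun hf => by
    obtain ⟨k, hk⟩ := (Sg.bool (hf.comp' (CP.dec CP.id')) 0).univ
    exact ⟨k, fun p => by simpa [dec_encode, RR] using hk (encode p)⟩
  obtain ⟨k, hk⟩ := nf c1
  obtain ⟨k', hk'⟩ := nf c2
  have p : ∀ k, PR fun p : ℕ × C × ℕ => hl k (Nat.pair (encode (p.1, p.2.1)) p.2.2) := fun k =>
    PR.comp' (g := fun p : ℕ × C × ℕ => (k, Nat.pair (encode (p.1, p.2.1)) p.2.2)) pr_hl
      (by fun_prop)
  refine turing_of_cert (C := C × ℕ) (D := C × ℕ) (sp := fun c => sp c.1) (sp' := fun c => sp c.1)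
    (chk := fun x c => hl k (Nat.pair (encode (x, c.1)) c.2))
    (chk' := fun x c => hl k' (Nat.pair (encode (x, c.1)) c.2)) (p k) (by fun_prop) (p k')
    (by fun_prop) (fun x => ?_) fun x => ?_
  · simp only [h, hk, Prod.exists, exists_and_right]
  · simp only [h', hk', Prod.exists, exists_and_right]

end Pool.Agent.Lib.MP_9f1eae_lc.LD
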