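import Mathlib
import Pool.Agent.Lib.MP_9f1eae_lc.LD.Gad
import Pool.Agent.Lib.MP_9f1eae_lc.LE.Tur

/-! Without collapse there is a copy whose bases compute all arithmetic sets. -/

namespace Pool.Agent.Lib.MP_9f1eae_lc.LE

open Pool.Agent.Lib.MP_3d42d9_lc Pool.Agent.Lib.MP_9f1eae_lc Pool.Agent.Lib.MP_9f1eae_lc.LD
  MvPolynomial Encodable

/-- Indices of gadgets: level, ladder, argument. -/
abbrev Ix := ℕ × List (List Tm) × ℕ

/-- The formula of a gadget. -/
def fm (I : Ix) : List At := [(I.1 + 1, false, I.2.2.unpair.1, I.2.2.unpair.2)]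

/-- The block `w` holds a gadget. -/
def ok (w : ℕ) : Bool := Nat.blt 0 w && chkL ((dec Ix (w - 1)).1 + 4) (dec Ix (w - 1)).2.1

/-- The generators of the gadget in the block `w`. -/
def gb (w : ℕ) (x : List (List ℕ) × ℕ) : Tm :=
  gc (dec Ix (w - 1)).2.1 0 (fm (dec Ix (w - 1))) ((dec Ix (w - 1)).1 + 2) x.1 x.2

/-- All generators. -/
def gn (n : ℕ) : Tm :=
  bif ok n.unpair.1 then sbT (fun m => var (Nat.pair n.unpair.1 m))
    (gb n.unpair.1 (dec (List (List ℕ) × ℕ) n.unpair.2)) else var n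

theorem pr_gn : PR gn := by
  have h1 : PR ok := by
    unfold ok
    exact PR.and (by fun_prop) (PR.comp' (g := fun w : ℕ =>
      ((dec Ix (w - 1)).1 + 4, (dec Ix (w - 1)).2.1)) pr_chkL (by fun_prop))
  unfold gn gb fm
  exact PR.cond (h1.comp' (by fun_prop)) (PR.sbT (by fun_prop)
    (PR.gc (by fun_prop) (by fun_prop) (by fun_prop) (by fun_prop) (by fun_prop))) (by fun_prop)

theorem gn_ok {w : ℕ} (h : ok w = true) (r : ℕ) : vX (gn (Nat.pair w r)) =
    rename (Nat.pair w) (vX (gb w (dec (List (List ℕ) × ℕ) r))) := by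
  simp only [gn, Nat.unpair_pair, h, cond_true, val_sbT, rename_eq]
  simp only [vX, val_var]

theorem pair_inj (w : ℕ) : Function.Injective (Nat.pair w) := fun _ _ h => (Nat.pair_eq_pair.1 h).2

theorem chkL_rg {N : ℕ} {Ps : List (List Tm)} (h : chkL N Ps = true) {i : ℕ} (l : i < N) :
    Rg Ps i := by
  simp only [chkL, List.all_eq_true, List.mem_range] at h
  exact h i l

theorem big : ∃ S, Split S ∧ S.Infinite ∧
    Algebra.adjoin ℚ S = Algebra.adjoin ℚ (Set.range fun n => vX (gn n)) ∧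
    ∀ I : Ix, chkL (I.1 + 4) I.2.1 = true →
      (¬ LD.RR (I.1 + 1) I.2.2.unpair.1 I.2.2.unpair.2 → ∀ i < (I.2.1.getD 0 []).length,
        rename (Nat.pair (encode I + 1)) (tup (I.2.1.getD 0 []) i) ∈ S) ∧
      (LD.RR (I.1 + 1) I.2.2.unpair.1 I.2.2.unpair.2 → ∀ u < (I.2.1.getD 1 []).length,
        X (Nat.pair (encode I + 1) u) ∈ S) := by
  have g : ∀ w, ok w = true → _ := fun w h => gad (Ps := (dec Ix (w - 1)).2.1)
    ((dec Ix (w - 1)).1 + 2) 0 (fm (dec Ix (w - 1))) (by simp [Rk, fm, rk])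
    fun i hi => chkL_rg (Bool.and_eq_true _ _ ▸ h).2 (by omega)
  choose! T t1 t2 t3 t4 using g
  refine ⟨_, glue 0 (fun m => m.unpair.1) (fun w => ok w = true)
    (fun w => rename (Nat.pair w) '' T w) (split_X {m | ¬ ok m.unpair.1 = true}) ?_
    fun w h => ⟨(t1 w h).image _ (rename fun m => m.unpair.2) fun x => ?_, by simp, ?_⟩, ?_,
    le_antisymm (Algebra.adjoin_le ?_) (Algebra.adjoin_le ?_), fun I h => ?_⟩
  · rintro _ ⟨m, hm, rfl⟩
    exact Algebra.subset_adjoin ⟨m, .inr hm, rfl⟩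
  · rw [rename_rename, show (fun m => m.unpair.2) ∘ Nat.pair w = id from funext (by simp),
      rename_id_apply]
  · rintro _ ⟨s, -, rfl⟩
    refine map_mem_adjoin _ ?_ (sup_univ s)
    rintro _ ⟨m, -, rfl⟩
    exact Algebra.subset_adjoin ⟨Nat.pair w m, .inr (by simp), (rename_X _ _).symm⟩
  · exact Set.infinite_of_injective_forall_mem (f := fun n => (X (Nat.pair 0 n) : Pq))
      (X_injective.comp (pair_inj 0)) fun n => .inl ⟨_, by simp [ok, Nat.blt], rfl⟩
  · rintro _ (⟨m, hm, rfl⟩ | ⟨-, w, h, s, hs, rfl⟩)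
    · have : ok m.unpair.1 = false := by simpa using hm
      exact Algebra.subset_adjoin ⟨m, by simp [gn, this, val_var]⟩
    · refine map_mem_adjoin _ ?_ ((t2 w h).le (Algebra.subset_adjoin hs))
      rintro _ ⟨x, rfl⟩
      exact Algebra.subset_adjoin ⟨Nat.pair w (encode x), by
        simp only [gn_ok h, dec_encode, gb]⟩
  · rintro _ ⟨n, rfl⟩
    cases h : ok n.unpair.1
    · exact Algebra.subset_adjoin (.inl ⟨n, by simp [h], by simp [gn, h, val_var]⟩)
    · have := gn_ok h n.unpair.2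
      rw [Nat.pair_unpair] at this
      simp only [this]
      exact map_mem_adjoin _ (fun s hs => Algebra.subset_adjoin (.inr ⟨by simp, _, h, s, hs, rfl⟩))
        ((t2 _ h).ge (Algebra.subset_adjoin ⟨_, rfl⟩))
  · have h' : ok (encode I + 1) = true := by
      simp only [ok, Nat.add_sub_cancel, dec_encode, h]
      simp [Nat.blt_eq]
    have k3 := t3 _ h'
    have k4 := t4 _ h'
    simp only [Nat.add_sub_cancel, dec_encode, fv, fm, av, List.mem_singleton, exists_eq_left,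
      Bool.false_eq_true, iff_false, not_not] at k3 k4
    exact ⟨fun c i hi => .inr ⟨by simp, _, h', _, k3 c i hi, rfl⟩,
      fun c u hu => .inr ⟨by simp, _, h', _, k4 c u hu, rename_X _ _⟩⟩

theorem exists_rho {e : ℕ ≃ Pq} {B : Set ℕ} (hi : AlgebraicIndependent ℚ fun b : B => e b)
    (hg : Algebra.adjoin ℚ (e '' B) = ⊤) : ∃ ρ : Pq →ₐ[ℚ] Pq, (∀ b ∈ B, ρ (e b) = X b) ∧
      ∀ N, LD.LT N fun n => ρ (X n) := by
  let Φ : MvPolynomial B ℚ ≃ₐ[ℚ] Pq := AlgEquiv.ofBijective (aeval fun b : B => e b)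
    ⟨hi, by
      rw [← AlgHom.range_eq_top, ← Algebra.adjoin_range_eq_range_aeval, ← hg, Set.image_eq_range]⟩
  refine ⟨(rename Subtype.val).comp Φ.symm.toAlgHom, fun b hb => ?_,
    fun N => (LT.iso N Φ.symm).ren Subtype.val_injective⟩
  have : e b = Φ (X ⟨b, hb⟩) := by simp [Φ]
  simp [this]

theorem neg (hc : ∀ n, ¬ Col n) : ∃ (add mul : ℕ → ℕ → ℕ) (e : ℕ ≃ Pq), Computable₂ add ∧
    Computable₂ mul ∧ (∀ i j, e (add i j) = e i + e j) ∧ (∀ i j, e (mul i j) = e i * e j) ∧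
    ∀ B : Set ℕ, AlgebraicIndependent ℚ (fun b : B => e b) → Algebra.adjoin ℚ (e '' B) = ⊤ →
      ∀ Y : Set ℕ, IsArith Y → TuringReducible (chi Y) (chi B) := by
  obtain ⟨S, s1, s2, s3, s4⟩ := big
  obtain ⟨add, mul, e, ix, Ψ, f, ca, cm, hadd, hmul, pix, hix, finj, hΨ⟩ := copy pr_gn s1 s2 s3
  refine ⟨add, mul, e, ca, cm, hadd, hmul, fun B hi hg Y ⟨m, _, hY⟩ => ?_⟩
  obtain ⟨c₀, hc₀⟩ := hY.univ
  obtain ⟨ρ, hρ, lρ⟩ := exists_rho hi hg
  have lt : ∀ {α : Type} (N : ℕ) (s : α → Pq), Function.Injective s → (∀ i, s i ∈ S) →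
      LD.LT N fun i => ρ (Ψ (s i)) := fun N s h1 h2 => by
    simpa only [hΨ _ (h2 _)] using (lρ N).res (f := fun i => f (s i))
      fun i j l => h1 (finj (h2 i) (h2 j) l)
  let O : Ops := ⟨add, mul, e.symm 0, e.symm 1⟩
  have hS : O.Sound e := ⟨hadd, hmul, e.apply_symm_apply _, e.apply_symm_apply _⟩
  obtain ⟨a, c, p, p1, p2⟩ : ∃ (a c : ℕ) (p : Fin a → MvPolynomial (Fin c) ℚ),
      LD.LT (m + 4) p ∧ ¬ LD.LT (m + 4 + 1) p := by
    have := hc (m + 4)
    rw [col_iff] at this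
    simpa only [lad_iff, not_forall, exists_prop] using this
  obtain ⟨P, rfl, hP⟩ := exists_code (fun i => rename Fin.val (p i)) _ fun _ => sup_univ _
  obtain ⟨Ps, hPs⟩ := chkL_of_lt (p1.ren Fin.val_injective) P rfl fun i => (hP i).1
  have p3 : ¬ LD.LT (m + 4 + 1) fun i : Fin P.length => tup P i := fun h =>
    p2 (LT.unren Fin.val_injective (by simpa only [(hP _).1] using h))
  have r0 : rung P (Ps.getD 0 []) = true := chkL_rg hPs (i := 0) (by omega)
  choose p' hp' using fun i : Fin P.length => exists_finP (rung_spec r0 i.2).1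
  let w : ℕ → ℕ := fun k => encode ((m, P :: Ps, Nat.pair c₀ k) : Ix) + 1
  let cc : ℕ → ℕ → ℕ := fun k u =>
    ix (Nat.pair (w k) (encode (([], u) : List (List ℕ) × ℕ)))
  have hcc : ∀ k, ∀ u < (Ps.getD 0 []).length, e (cc k u) = Ψ (X (Nat.pair (w k) u)) := by
    intro k u hu
    have : ok (w k) = true := by
      simp only [ok, w, Nat.add_sub_cancel, dec_encode, hPs]
      simp [Nat.blt_eq]
    rw [hix, gn_ok this, dec_encode]
    simp only [gb, w, Nat.add_sub_cancel, dec_encode, gc_nil]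
    rw [base_X (by simp), if_pos (by exact hu), rename_X]
  let cp : List Tm → List Tm := fun Q => P.map (sbT fun j => Q.getD j default)
  let ck : ℕ × List Tm × List (List Tm) → Bool := fun x =>
    (x.2.1.length == (Ps.getD 0 []).length) && (List.range (Ps.getD 0 []).length).all fun u =>
      O.chkV (x.2.1.getD u default) (cc x.1 u)
  have cck : CP ck := CP.and (by fun_prop) (CP.all (by fun_prop) (Ops.cp_chkV (O := O) ca cm
    (by fun_prop) (CP.of_pr (pix.comp' (by fun_prop)))))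
  have len : ∀ Q, (cp Q).length = P.length := fun Q => List.length_map _
  have key : ∀ k (Q : List Tm) Rs, ck (k, Q, Rs) = true → (∀ b ∈ Q.flatMap supp, b ∈ B) →
      Q.length = (Ps.getD 0 []).length ∧
      (∀ u < (Ps.getD 0 []).length, tup Q u = ρ (Ψ (X (Nat.pair (w k) u)))) ∧
      ∀ i : Fin P.length, tup (cp Q) i = ρ (Ψ (rename (Nat.pair (w k)) (tup P i))) := by
    intro k Q Rs h1 h2
    simp only [ck, Bool.and_eq_true, beq_iff_eq, List.all_eq_true, List.mem_range, hS.chkV] at h1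
    have hQ : ∀ u < (Ps.getD 0 []).length, tup Q u = ρ (Ψ (X (Nat.pair (w k) u))) := by
      intro u hu
      rw [tup, ← hcc k u hu, ← h1.2 u hu]
      refine (map_val' ρ _ _ _ fun j hj => hρ j (h2 j ?_)).symm
      rw [List.getD_eq_getElem _ _ (h1.1 ▸ hu)] at hj
      exact List.mem_flatMap.2 ⟨_, List.getElem_mem _, hj⟩
    refine ⟨h1.1, hQ, fun i => ?_⟩
    have h3 : tup (cp Q) i = aeval (tup Q) (tup P i) := by
      simp only [tup, cp, List.getD_eq_getElem?_getD, List.getElem?_map,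
        List.getElem?_eq_getElem i.2, Option.map_some, Option.getD_some, val_sbT]
      rfl
    exact h3.trans (eq_on_sup (ψ := ρ.comp (Ψ.comp (rename (Nat.pair (w k)))))
      (fun u hu => by simp [hQ u hu]) (rung_spec r0 i.2).1)
  have ex : ∀ k, ∃ Q : List Tm, (∀ Rs, ck (k, Q, Rs) = true) ∧ ∀ b ∈ Q.flatMap supp, b ∈ B := by
    intro k
    choose t h1 h2 using fun u : Fin (Ps.getD 0 []).length =>
      exists_term e B (x := e (cc k u)) (hg ▸ Algebra.mem_top)
    refine ⟨List.ofFn t, fun _ => ?_, fun x hx => ?_⟩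
    · simp only [ck, Bool.and_eq_true, beq_iff_eq, List.all_eq_true, List.mem_range, hS.chkV]
      refine ⟨List.length_ofFn, fun u hu => ?_⟩
      rw [List.getD_eq_getElem _ _ (by simpa using hu), List.getElem_ofFn]
      exact h1 _
    · obtain ⟨_, l, hx⟩ := List.mem_flatMap.1 hx
      obtain ⟨u, rfl⟩ := (List.mem_ofFn' _ _).1 l
      exact h2 u x hx
  have excl : ∀ k, (LD.LT (m + 4 + 1) fun i : Fin P.length =>
      ρ (Ψ (rename (Nat.pair (w k)) (tup P i)))) → ¬ LD.LT (m + 4 + 1 + 1)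
      fun u : Fin (Ps.getD 0 []).length => ρ (Ψ (X (Nat.pair (w k) u))) := fun k l1 l2 => by
    have : ∀ i : Fin P.length, ρ (Ψ (rename (Nat.pair (w k)) (tup P i))) = aeval
        (fun u : Fin (Ps.getD 0 []).length => ρ (Ψ (X (Nat.pair (w k) u)))) (p' i) := fun i => by
      rw [← hp', rename_rename, rename_eq, ← AlgHom.comp_apply, ← AlgHom.comp_apply, comp_aeval]
      rfl
    simp only [this] at l1
    exact p3 (by simpa only [hp'] using (l1.cancel l2).ren Fin.val_injective)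
  have t1 : ∀ k, k ∈ Y → LD.LT (m + 4 + 1) fun i : Fin P.length =>
      ρ (Ψ (rename (Nat.pair (w k)) (tup P i))) := fun k c => by
    refine lt _ _ (fun i j l => ?_) fun i => (s4 (m, P :: Ps, Nat.pair c₀ k) hPs).1
      (by simpa [← hc₀] using c) i i.2
    have := congrArg (aeval (tup (Ps.getD 0 []))) (rename_injective _ (pair_inj _) l)
    rw [(rung_spec r0 i.2).2, (rung_spec r0 j.2).2] at this
    exact Fin.ext (X_injective this)
  have t2 : ∀ k, k ∉ Y → LD.LT (m + 4 + 1 + 1)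
      fun u : Fin (Ps.getD 0 []).length => ρ (Ψ (X (Nat.pair (w k) u))) := fun k c =>
    lt _ _ (X_injective.comp ((pair_inj _).comp Fin.val_injective)) fun u =>
      (s4 (m, P :: Ps, Nat.pair c₀ k) hPs).2 (by simpa [← hc₀] using c) u u.2
  refine turing_of_cp (C := List Tm × List (List Tm)) (sp := fun c => c.1.flatMap supp)
    (chk := fun x => ck x && chkL (m + 4 + 1) (cp x.2.1 :: x.2.2))
    (chk' := fun x => ck x && chkL (m + 4 + 1 + 1) (x.2.1 :: x.2.2)) (cck.and (CP.of_pr ?_))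
    (cck.and (CP.of_pr (PR.comp' (g := fun x : ℕ × List Tm × List (List Tm) =>
      (m + 4 + 1 + 1, x.2.1 :: x.2.2)) pr_chkL (by fun_prop))))
    (PR.flatMap (by fun_prop) (PR.supp (by fun_prop))) (fun k => ⟨fun c => ?_, ?_⟩)
    fun k => ⟨fun c => ?_, ?_⟩
  · refine PR.comp' (g := fun x : ℕ × List Tm × List (List Tm) =>
      (m + 4 + 1, cp x.2.1 :: x.2.2)) pr_chkL (PR.pair (by fun_prop) (PR.cons ?_ (by fun_prop)))
    exact PR.map (by fun_prop) (PR.sbT (pr_getD' _ (by fun_prop) (by fun_prop)) (by fun_prop))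
  · obtain ⟨Q, h1, h2⟩ := ex k
    obtain ⟨Rs, hR⟩ := chkL_of_lt (t1 k c) _ (len Q) (key k Q [] (h1 _) h2).2.2
    exact ⟨(Q, Rs), by simp only [h1, hR, Bool.and_self], h2⟩
  · rintro ⟨⟨Q, Rs⟩, h1, h2⟩
    rw [Bool.and_eq_true] at h1
    have l1 := (lt_of_chkL h1.2).res (f := Fin.cast (len Q).symm) (Fin.cast_injective _)
    have l2 : LD.LT (m + 4 + 1) fun i : Fin P.length => tup (cp Q) i := l1
    simp only [(key k Q Rs h1.1 h2).2.2] at l2
    exact by_contra fun c => excl k l2 (t2 k c)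
  · obtain ⟨Q, h1, h2⟩ := ex k
    obtain ⟨k1, k2, -⟩ := key k Q [] (h1 _) h2
    obtain ⟨Rs, hR⟩ := chkL_of_lt (t2 k c) _ k1 fun u => k2 u u.2
    exact ⟨(Q, Rs), by simp only [h1, hR, Bool.and_self], h2⟩
  · rintro ⟨⟨Q, Rs⟩, h1, h2⟩ c
    rw [Bool.and_eq_true] at h1
    obtain ⟨k1, k2, -⟩ := key k Q Rs h1.1 h2
    have l1 := (lt_of_chkL h1.2).res (f := Fin.cast k1.symm) (Fin.cast_injective _)
    have l2 : LD.LT (m + 4 + 1 + 1) fun u : Fin (Ps.getD 0 []).length => tup Q u := l1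
    simp only [k2 _ (Fin.is_lt _)] at l2
    exact excl k (t1 k c) l2

end Pool.Agent.Lib.MP_9f1eae_lc.LE
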