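import Mathlib
import Pool.Agent.Lib.MP_9f1eae_lc.LD.Pos
import Pool.Agent.Lib.MP_9f1eae_lc.LD.Code

/-! Collapse says that long ladders start with parts of bases. -/

namespace Pool.Agent.Lib.MP_9f1eae_lc.LD

open Pool.Agent.Lib.MP_3d42d9_lc Pool.Agent.Lib.MP_9f1eae_lc MvPolynomial

theorem lt_of_basis {α : Type} {S : Set Pq} (h1 : AlgebraicIndependent ℚ ((↑) : S → Pq))
    (h2 : Algebra.adjoin ℚ S = ⊤) {p : α → Pq} (hp : Function.Injective p) (h : ∀ i, p i ∈ S)
    (N : ℕ) : LT N p := by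
  let Φ : MvPolynomial S ℚ ≃ₐ[ℚ] Pq := AlgEquiv.ofBijective (aeval ((↑) : S → Pq))
    ⟨h1, by rw [← AlgHom.range_eq_top, ← Algebra.adjoin_range_eq_range_aeval, ← h2,
      Subtype.range_coe]⟩
  simpa [Φ] using (LT.iso N Φ).res (f := fun i => ⟨p i, h i⟩)
    fun i j l => hp (congrArg Subtype.val l)

theorem basis_of_col {n a : ℕ} (hc : Col n) {p : Fin a → Pq} (hp : LT n p) :
    ∃ S : Set Pq, AlgebraicIndependent ℚ ((↑) : S → Pq) ∧ Algebra.adjoin ℚ S = ⊤ ∧
      ∀ i, p i ∈ S := by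
  have : Countable Pq := Function.Surjective.countable (f := vX) fun x =>
    (exists_term X _ (sup_univ x)).imp fun _ h => h.1
  obtain ⟨e⟩ : Nonempty (ℕ ≃ Pq) := inferInstance
  have h0 : ∀ N, LT N (tb e (List.ofFn fun i => e.symm (p i))) := fun N => by
    choose g hg using fun i : {x // x ∈ List.ofFn fun i => e.symm (p i)} => List.mem_ofFn.1 i.2
    have : tb e _ = fun i => p (g i) := funext fun i => by rw [tb, ← hg]; simp
    rw [this]
    exact (hc.all hp N).res fun i i' l => Subtype.ext (by rw [← hg, ← hg, l])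
  choose! nx n1 n2 n3 using fun (b : List ℕ) (l : ℕ) (h : ∀ N, LT N (tb e b)) => good_ext hc h [l]
  let β : ℕ → List ℕ := fun l => Nat.rec (List.ofFn fun i => e.symm (p i)) (fun l b => nx b l) l
  have h1 : ∀ l N, LT N (tb e (β l)) := fun l => by
    induction l with
    | zero => exact h0
    | succ l ih => exact n2 _ l ih
  have mono : Monotone fun l => e '' {x | x ∈ β l} := monotone_nat_of_le_succ fun l =>
    Set.image_mono (n1 _ l (h1 l))
  refine ⟨⋃ l, e '' {x | x ∈ β l}, algebraicIndependent_iUnion_of_directed mono.directed_le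
    fun l => ?_, eq_top_iff.2 fun r _ => ?_, fun i => Set.mem_iUnion.2
      ⟨0, e.symm (p i), List.mem_ofFn.2 ⟨i, rfl⟩, by simp⟩⟩
  · have := (h1 l 1).indep.coe_range
    rwa [range_tb] at this
  · obtain ⟨l, rfl⟩ := e.surjective r
    exact Algebra.adjoin_mono (Set.subset_iUnion (fun l => e '' {x | x ∈ β l}) (l + 1))
      (n3 _ l (h1 l) l (by simp))

theorem col_iff_part : (∃ n, Col n) ↔ ∃ n, ∀ (a c : ℕ) (p : Fin a → MvPolynomial (Fin c) ℚ),
    Lad n p → ∃ S : Set Pq, AlgebraicIndependent ℚ ((↑) : S → Pq) ∧ Algebra.adjoin ℚ S = ⊤ ∧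
      ∀ i, rename Fin.val (p i) ∈ S := by
  simp only [lad_iff]
  refine ⟨fun ⟨n, h⟩ => ⟨n, fun a c p hp => basis_of_col h (hp.ren Fin.val_injective)⟩,
    fun ⟨n, h⟩ => ⟨n + 1, col_iff.2 fun a c p hp => ?_⟩⟩
  rw [lad_iff] at hp ⊢
  obtain ⟨S, h1, h2, h3⟩ := h a c p hp.pred
  exact LT.unren Fin.val_injective (lt_of_basis h1 h2
    ((hp.ren Fin.val_injective).anti (Nat.le_add_left 1 n)).indep.injective h3 _)

end Pool.Agent.Lib.MP_9f1eae_lc.LD
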