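import Mathlib
import Pool.Agent.Lib.MP_9f1eae_lc.LD.Pos

/-! Collapse of the ladders gives bases at one level of the arithmetic hierarchy. -/

namespace Pool.Agent.Lib.MP_9f1eae_lc.LD

open Pool.Agent.Lib.MP_3d42d9_lc Pool.Agent.Lib.MP_9f1eae_lc MvPolynomial

section
variable {ι α β : Type} [Primcodable α] [Primcodable β] {P Q : ι → α → Prop}

/-- Families of predicates at one level. -/
def AU (P : ι → α → Prop) : Prop := ∃ n, ∀ i, Sg n (P i)

theorem AU.congr (h : AU P) (e : ∀ i x, Q i x ↔ P i x) : AU Q :=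
  h.imp fun _ k i => (k i).congr (e i)
theorem AU.comp (h : AU P) {g : β → α} (hg : CP g) : AU fun i x => P i (g x) :=
  h.imp fun _ k i => (k i).comp hg
theorem AU.bool {f : ι → α → Bool} (hf : ∀ i, CP (f i)) : AU fun i x => f i x = true :=
  ⟨0, fun i => Sg.bool (hf i) 0⟩
theorem AU.not (h : AU P) : AU fun i x => ¬ P i x := h.elim fun _ k => ⟨_, fun i => (k i).not⟩
theorem AU.and (h : AU P) (h' : AU Q) : AU fun i x => P i x ∧ Q i x := by
  obtain ⟨n, h⟩ := h
  obtain ⟨m, h'⟩ := h'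
  exact ⟨_, fun i => (((h i).mono (le_max_left n m)).and_or ((h' i).mono (le_max_right n m))).1⟩
theorem AU.imp' (h : AU P) (h' : AU Q) : AU fun i x => P i x → Q i x :=
  (h.and h'.not).not.congr fun i x => by tauto
theorem AU.ex {T : Type} [Primcodable T] [Inhabited T] {P : ι → α × T → Prop} (h : AU P) :
    AU fun i x => ∃ t, P i (x, t) := h.elim fun _ k => ⟨_, fun i => (k i).ex⟩
theorem AU.all {T : Type} [Primcodable T] [Inhabited T] {P : ι → α × T → Prop} (h : AU P) :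
    AU fun i x => ∀ t, P i (x, t) := h.not.ex.not.congr fun i x => by simp

theorem au_path {St : ι → List ℕ × ℕ × List ℕ → Prop} (hS : AU St) {Inv : ι → List ℕ → Prop}
    (h0 : ∀ c, Inv c []) (hs : ∀ c b l, Inv c b → ∃ b', St c (b, l, b'))
    (hi : ∀ c b l b', St c (b, l, b') → Inv c b') :
    ∃ β : ι → ℕ → List ℕ, (∀ c l, Inv c (β c l)) ∧ (∀ c l, St c (β c l, l, β c (l + 1))) ∧
      AU fun c (x : ℕ) => ∃ l, x ∈ β c l := by
  let S : ι → ℕ × ℕ × ℕ → Prop := fun c p =>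
    St c (dec (List ℕ) p.1, p.2.1, dec (List ℕ) p.2.2)
  have aS : AU S := hS.comp (by fun_prop)
  let L : ι → ℕ × ℕ × ℕ → Prop := fun c p =>
    S c p ∧ ∀ k, Nat.blt k p.2.2 = true → ¬ S c (p.1, p.2.1, k)
  have aL : AU L := aS.and (AU.all (P := fun c (q : (ℕ × ℕ × ℕ) × ℕ) =>
    Nat.blt q.2 q.1.2.2 = true → ¬ S c (q.1.1, q.1.2.1, q.2))
      ((AU.bool fun _ => by fun_prop).imp' (aS.comp (by fun_prop)).not))
  let k0 := Encodable.encode ([] : List ℕ)
  let κ : ι → ℕ → ℕ := fun c l => Nat.rec k0 (fun l k => sInf {k' | S c (k, l, k')}) l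
  have st : ∀ c l, Inv c (dec _ (κ c l)) → S c (κ c l, l, κ c (l + 1)) := fun c l h => by
    obtain ⟨b, hb⟩ := hs c _ l h
    exact Nat.sInf_mem (s := {k' | S c (κ c l, l, k')})
      ⟨Encodable.encode b, by simpa only [Set.mem_ofPred_eq, S, dec_encode] using hb⟩
  have inv : ∀ c l, Inv c (dec _ (κ c l)) := fun c l => by
    induction l with
    | zero => simpa only [κ, k0, Nat.rec_zero, dec_encode] using h0 c
    | succ l ih => exact hi _ _ _ _ (st c l ih)
  have uq : ∀ c l k, L c (κ c l, l, k) ↔ k = κ c (l + 1) := fun c l k => by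
    refine ⟨fun h => le_antisymm (not_lt.1 fun m => ?_)
      (Nat.sInf_le (s := {k' | S c (κ c l, l, k')}) h.1), ?_⟩
    · exact h.2 _ (by simpa using m) (st c l (inv c l))
    · rintro rfl
      exact ⟨st c l (inv c l), fun k m =>
        Nat.notMem_of_lt_sInf (s := {k' | S c (κ c l, l, k')}) (by simpa using m)⟩
  refine ⟨fun c l => dec _ (κ c l), inv, fun c l => st c l (inv c l), ?_⟩
  have a1 : AU fun c (q : ℕ × List ℕ × ℕ) => ∀ i, Nat.blt i q.2.2 = true →
      L c (q.2.1.getD i 0, i, q.2.1.getD (i + 1) 0) :=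
    AU.all (P := fun c (r : (ℕ × List ℕ × ℕ) × ℕ) => Nat.blt r.2 r.1.2.2 = true →
      L c (r.1.2.1.getD r.2 0, r.2, r.1.2.1.getD (r.2 + 1) 0))
      ((AU.bool fun _ => by fun_prop).imp' (aL.comp (CP.pair (by fun_prop) (CP.pair (by fun_prop)
        (CP.getD _ (by fun_prop) (CP.of_pr (by fun_prop)))))))
  have a2 : AU fun (_ : ι) (q : ℕ × List ℕ × ℕ) => ((q.2.1.getD 0 0 == k0) &&
      mb q.1 (dec (List ℕ) (q.2.1.getD q.2.2 0))) = true := AU.bool fun _ => by fun_prop
  refine (a1.and a2).ex.congr fun c x => ⟨fun ⟨l, h⟩ => ?_, fun ⟨⟨H, l⟩, h1, h2⟩ => ⟨l, ?_⟩⟩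
  · have g : ∀ i ≤ l, ((List.range (l + 1)).map (κ c)).getD i 0 = κ c i := fun i m => by
      simp [List.getD_eq_getElem?_getD, List.getElem?_range (Nat.lt_succ_of_le m)]
    refine ⟨((List.range (l + 1)).map (κ c), l), fun i m => ?_, ?_⟩
    · have m' : i < l := by simpa using m
      simp only [g i m'.le, g (i + 1) m']
      exact (uq _ _ _).2 rfl
    · simp only [g 0 l.zero_le, g l le_rfl, Bool.and_eq_true, beq_iff_eq, mb_iff]
      exact ⟨rfl, h⟩
  · simp only [Bool.and_eq_true, beq_iff_eq, mb_iff] at h1 h2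
    have g : ∀ i ≤ l, H.getD i 0 = κ c i := fun i m => by
      induction i with
      | zero => exact h2.1
      | succ i ih =>
        have := h1 i (by simpa using m)
        rw [ih (Nat.le_of_succ_le m)] at this
        exact (uq _ _ _).1 this
    exact (g l le_rfl ▸ h2.2 : x ∈ dec (List ℕ) (κ c l))

end

/-- Computable copies. -/
structure Cp where
  /-- the operations -/
  O : Ops
  /-- the isomorphism -/
  e : ℕ ≃ Pq
  hS : O.Sound e
  ca : CP fun p : ℕ × ℕ => O.add p.1 p.2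
  cm : CP fun p : ℕ × ℕ => O.mul p.1 p.2

theorem au_sp : AU fun (c : Cp) (p : ℕ × List ℕ) => c.e p.1 ∈ Sp c.e p.2 := by
  have : ∀ c : Cp, CP fun q : (ℕ × List ℕ) × Tm =>
      ((supp q.2).all fun y => mb y q.1.2) && c.O.chkV q.2 q.1.1 := fun c =>
    CP.and (CP.all (cp_supp.comp' (by fun_prop)) (by fun_prop))
      (Ops.cp_chkV c.ca c.cm (by fun_prop) (by fun_prop))
  refine (AU.bool this).ex.congr fun c p => ?_
  simp only [sp_iff, Bool.and_eq_true, List.all_eq_true, mb_iff, c.hS.chkV]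

theorem au_ind : AU fun (c : Cp) (b : List ℕ) => AlgebraicIndependent ℚ (tb c.e b) := by
  have h1 : CP fun q : List ℕ × Tm => (supp q.2).all fun y => mb y q.1 :=
    CP.all (cp_supp.comp' (by fun_prop)) (by fun_prop)
  have h2 : ∀ c : Cp, CP fun q : List ℕ × Tm => c.O.chkV q.2 c.O.z := fun c =>
    Ops.cp_chkV c.ca c.cm (by fun_prop) (by fun_prop)
  have h3 : CP fun q : List ℕ × Tm => eqV q.2 (0, [], []) :=
    CP.of_pr (by unfold eqV; fun_prop)
  refine ((AU.bool fun _ => h1).imp' ((AU.bool h2).imp' (AU.bool fun _ => h3))).all.congr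
    fun c b => ?_
  have h4 : ∀ t : Tm, eqV t (0, [], []) = true ↔ val (X : ℕ → Pq) t = 0 := fun t => by
    rw [eqV, eqP_iff, ← val_eq_iff]
    simp [val]
  simp only [ind_iff, List.all_eq_true, mb_iff, c.hS.chkV, c.hS.z, h4]

theorem au_tc (j : ℕ) : AU fun c : Cp => Tc c.e j := by
  induction j with
  | zero => exact au_ind
  | succ j ih =>
    have h1 : CP fun q : (List ℕ × List ℕ) × List ℕ => q.1.1.all fun y => mb y q.2 :=
      CP.all (by fun_prop) (by fun_prop)
    have h2 : AU fun (c : Cp) (q : (List ℕ × List ℕ) × List ℕ) =>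
        ∀ x, mb x q.1.2 = true → c.e x ∈ Sp c.e q.2 :=
      AU.all (P := fun (c : Cp) (r : ((List ℕ × List ℕ) × List ℕ) × ℕ) =>
        mb r.2 r.1.1.2 = true → c.e r.2 ∈ Sp c.e r.1.2) ((AU.bool fun _ => by fun_prop).imp'
          (au_sp.comp (g := fun r : ((List ℕ × List ℕ) × List ℕ) × ℕ => (r.2, r.1.2))
            (by fun_prop)))
    refine (au_ind.and ((AU.bool fun _ => h1).and ((ih.comp
      (g := fun q : (List ℕ × List ℕ) × List ℕ => q.2) (by fun_prop)).and h2)).ex.all).congr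
        fun c b => ?_
    simp only [Tc, List.all_eq_true, mb_iff]

theorem pos_unif {n : ℕ} (hc : Col n) : ∃ m, ∀ (add mul : ℕ → ℕ → ℕ) (e : ℕ ≃ MvPolynomial ℕ ℚ),
    Computable₂ add → Computable₂ mul → (∀ i j, e (add i j) = e i + e j) →
    (∀ i j, e (mul i j) = e i * e j) → ∃ B : Set ℕ, (Sg m (fun x => x ∈ B) ∧
      Sg m fun x => x ∉ B) ∧ AlgebraicIndependent ℚ (fun b : B => e b) ∧
      Algebra.adjoin ℚ (e '' B) = ⊤ := by
  have h0 : CP fun q : List ℕ × ℕ × List ℕ => q.1.all fun y => mb y q.2.2 :=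
    CP.all (by fun_prop) (by fun_prop)
  obtain ⟨γ, h1, h2, m, h3⟩ := au_path ((AU.bool fun _ => h0).and (((au_tc n).comp
    (g := fun q : List ℕ × ℕ × List ℕ => q.2.2) (by fun_prop)).and (au_sp.comp
      (g := fun q : List ℕ × ℕ × List ℕ => q.2) (by fun_prop)))) (Inv := fun c => Tc c.e n)
    (fun _ => std_tc (by simp)) (fun _ b l h => by
      obtain ⟨c, k1, k2, k3⟩ := good_ext hc (hc.all h.lt) [l]
      exact ⟨c, by simpa only [List.all_eq_true, mb_iff] using k1, good_tc hc k2, k3 l (by simp)⟩)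
    fun _ b l c h => h.2.1
  refine ⟨m + 1, fun add mul e ca cm hadd hmul => ?_⟩
  let c : Cp := ⟨⟨add, mul, e.symm 0, e.symm 1⟩, e,
    ⟨hadd, hmul, e.apply_symm_apply _, e.apply_symm_apply _⟩, ca, cm⟩
  let β := γ c
  replace h1 : ∀ l, Tc e n (β l) := h1 c
  replace h2 := h2 c
  simp only [List.all_eq_true, mb_iff] at h2
  have mono : Monotone fun l => e '' {x | x ∈ β l} := monotone_nat_of_le_succ fun l =>
    Set.image_mono (h2 l).1
  have im : e '' {n | ∃ l, n ∈ β l} = ⋃ l, e '' {x | x ∈ β l} := by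
    rw [← Set.image_iUnion, Set.ofPred_exists]
  refine ⟨{n | ∃ l, n ∈ β l}, ⟨(h3 c).succ, (h3 c).not⟩, ?_, eq_top_iff.2 fun r _ => ?_⟩
  · have := algebraicIndependent_iUnion_of_directed mono.directed_le fun l => by
      have := (h1 l).ind.coe_range
      rwa [range_tb] at this
    rw [← im] at this
    exact this.comp (fun b : {n | ∃ l, n ∈ β l} => ⟨e b, b, b.2, rfl⟩)
      fun b b' l => Subtype.ext (e.injective (congrArg Subtype.val l))
  · obtain ⟨l, rfl⟩ := e.surjective r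
    rw [im]
    exact Algebra.adjoin_mono (Set.subset_iUnion (fun l => e '' {x | x ∈ β l}) (l + 1)) (h2 l).2.2

end Pool.Agent.Lib.MP_9f1eae_lc.LD
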