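import Mathlib
import Pool.Agent.Lib.MP_9f1eae_lc.LE.Pos
import Pool.Agent.Lib.MP_9f1eae_lc.LE.Neg
import Pool.Agent.Lib.MP_9f1eae_lc.LE.Part

/-! Five equivalent forms of the existence of arithmetic bases. -/

namespace Pool.Agent.Lib.MP_9f1eae_lc.LE

open Pool.Agent.Lib.MP_9f1eae_lc Pool.Agent.Lib.MP_9f1eae_lc.LD

theorem tfae : List.TFAE [
    ∀ (add mul : ℕ → ℕ → ℕ) (e : ℕ ≃ MvPolynomial ℕ ℚ), Computable₂ add → Computable₂ mul →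
      (∀ i j, e (add i j) = e i + e j) → (∀ i j, e (mul i j) = e i * e j) →
      ∃ B : Set ℕ, IsArith B ∧ AlgebraicIndependent ℚ (fun b : B => e b) ∧
        Algebra.adjoin ℚ (e '' B) = ⊤,
    ∃ n, ∀ (add mul : ℕ → ℕ → ℕ) (e : ℕ ≃ MvPolynomial ℕ ℚ), Computable₂ add → Computable₂ mul →
      (∀ i j, e (add i j) = e i + e j) → (∀ i j, e (mul i j) = e i * e j) →
      ∃ B : Set ℕ, (Sg n (fun x => x ∈ B) ∧ Sg n fun x => x ∉ B) ∧
        AlgebraicIndependent ℚ (fun b : B => e b) ∧ Algebra.adjoin ℚ (e '' B) = ⊤,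
    ∀ (add mul : ℕ → ℕ → ℕ) (e : ℕ ≃ MvPolynomial ℕ ℚ), Computable₂ add → Computable₂ mul →
      (∀ i j, e (add i j) = e i + e j) → (∀ i j, e (mul i j) = e i * e j) →
      ∃ B Y : Set ℕ, AlgebraicIndependent ℚ (fun b : B => e b) ∧
        Algebra.adjoin ℚ (e '' B) = ⊤ ∧ IsArith Y ∧ ¬ TuringReducible (chi Y) (chi B),
    ∃ n, ∀ (a c : ℕ) (p : Fin a → MvPolynomial (Fin c) ℚ), Lad n p → Lad (n + 1) p,
    ∃ n, ∀ (a c : ℕ) (p : Fin a → MvPolynomial (Fin c) ℚ), Lad n p →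
      ∃ S : Set (MvPolynomial ℕ ℚ), AlgebraicIndependent ℚ ((↑) : S → MvPolynomial ℕ ℚ) ∧
        Algebra.adjoin ℚ S = ⊤ ∧ ∀ i, MvPolynomial.rename Fin.val (p i) ∈ S] := by
  tfae_have 2 → 1 := fun ⟨n, h⟩ add mul e ca cm h1 h2 =>
    (h add mul e ca cm h1 h2).imp fun _ k => ⟨⟨n, k.1⟩, k.2⟩
  tfae_have 1 → 3 := fun h add mul e ca cm h1 h2 => by
    obtain ⟨B, b1, b2, b3⟩ := h add mul e ca cm h1 h2
    obtain ⟨Y, y⟩ := not_forall.1 (not_all_below b1)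
    exact ⟨B, Y, b2, b3, Classical.not_imp.1 y⟩
  tfae_have 3 → 4 := fun h => by_contra fun k => by
    simp only [← col_iff] at k
    obtain ⟨add, mul, e, ca, cm, h1, h2, h3⟩ := neg (not_exists.1 k)
    obtain ⟨B, Y, b1, b2, y1, y2⟩ := h add mul e ca cm h1 h2
    exact y2 (h3 B b1 b2 Y y1)
  tfae_have 4 → 2 := fun ⟨_, h⟩ => pos_unif (col_iff.2 h)
  tfae_have 4 ↔ 5 := by simpa only [col_iff] using col_iff_part
  tfae_finish

end Pool.Agent.Lib.MP_9f1eae_lc.LE
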