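import Mathlib
import Pool.Agent.Results.MP_9f1eae_lc.Ladder

open Pool.Agent.Lib.MP_9f1eae_lc.LD

/-- The earlier two-sided form follows from the new result. -/
theorem Pool.Agent.Lib.MP_9f1eae_lc.LE.old_of_new :
    (∀ (add mul : ℕ → ℕ → ℕ) (e : ℕ ≃ MvPolynomial ℕ ℚ), Computable₂ add → Computable₂ mul →
      (∀ i j, e (add i j) = e i + e j) → (∀ i j, e (mul i j) = e i * e j) →
      ∃ B : Set ℕ, IsArith B ∧ AlgebraicIndependent ℚ (fun b : B => e b) ∧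
        Algebra.adjoin ℚ (e '' B) = ⊤) ↔
    ∃ n, ∀ (a c : ℕ) (p : Fin a → MvPolynomial (Fin c) ℚ), Lad n p → Lad (n + 1) p :=
  Pool.Agent.Results.MP_9f1eae_lc.Ladder.result.out 0 3
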